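import Mathlib
import Pool.Agent.H72.FoxCons

namespace Pool.Agent.Results.MP_cfa383_al.NonMinimal

open Pool.Agent.H72.FoxDefs

theorem result : ∃ (G : Type) (_ : Group G) (m : ℕ) (C : PartialRes G m),
    ¬ Minimal C ∧ foxIdeal C ≠ ⊤ := by
  obtain ⟨G, _, C, D, h, h'⟩ := Pool.Agent.H72.FoxCons.nonminimal
  exact ⟨G, inferInstance, 1, C, fun hm => absurd (hm D) (not_le.2 h), h'⟩

end Pool.Agent.Results.MP_cfa383_al.NonMinimal
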